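import Pool.Agent.W622.BK.Stm

set_option autoImplicit false

universe u

namespace Pool.Agent.W766.BK

open Finset

/-- removing the position `i` -/
def rem {n N : ℕ} (I : Fin (n + 1) ↪o Fin N) (i : Fin (n + 1)) : Fin n ↪o Fin N :=
  (Fin.succAboveOrderEmb i).trans I

theorem rem_apply {n N : ℕ} (I : Fin (n + 1) ↪o Fin N) (i : Fin (n + 1)) (t : Fin n) :
    rem I i t = I (i.succAbove t) := rfl

theorem range_rem {n N : ℕ} (I : Fin (n + 1) ↪o Fin N) (i : Fin (n + 1)) :
    Set.range (rem I i) = Set.range I \ {I i} := by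
  have h : (rem I i : Fin n → Fin N) = I ∘ i.succAbove := rfl
  rw [h, Set.range_comp, Fin.range_succAbove, Set.compl_eq_univ_diff,
    Set.image_diff I.injective, Set.image_univ, Set.image_singleton]

theorem insert_range_rem {n N : ℕ} (I : Fin (n + 1) ↪o Fin N) (i : Fin (n + 1)) :
    insert (I i) (Set.range (rem I i)) = Set.range I := by
  rw [range_rem, Set.insert_diff_singleton, Set.insert_eq_of_mem (Set.mem_range_self i)]

open Classical in
theorem one_step {A : Type*} [AddCommMonoid A] {n N : ℕ} (Φ : (Fin n ↪o Fin N) → Fin N → A) :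
    ∑ I : Fin (n + 1) ↪o Fin N, ∑ i : Fin (n + 1), Φ (rem I i) (I i) =
      ∑ J : Fin n ↪o Fin N, ∑ p : Fin N, (if p ∈ Set.range J then 0 else Φ J p) := by
  rw [← Fintype.sum_prod_type' (f := fun (I : Fin (n + 1) ↪o Fin N) i => Φ (rem I i) (I i)),
    ← Fintype.sum_prod_type'
      (f := fun (J : Fin n ↪o Fin N) (p : Fin N) => if p ∈ Set.range J then 0 else Φ J p)]
  have h1 : ∑ y : (Fin n ↪o Fin N) × Fin N, (if y.2 ∈ Set.range y.1 then 0 else Φ y.1 y.2) =
      ∑ y ∈ univ.filter (fun y : (Fin n ↪o Fin N) × Fin N => ¬ y.2 ∈ Set.range y.1),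
        Φ y.1 y.2 := by
    rw [Finset.sum_filter]
    refine Finset.sum_congr rfl fun y _ => ?_
    by_cases h : y.2 ∈ Set.range y.1
    · rw [if_pos h, if_neg (not_not.2 h)]
    · rw [if_neg h, if_pos h]
  rw [h1]
  refine Finset.sum_bij (fun x _ => (rem x.1 x.2, x.1 x.2)) ?_ ?_ ?_ ?_
  · rintro ⟨I, i⟩ _
    rw [Finset.mem_filter]
    refine ⟨Finset.mem_univ _, ?_⟩
    rw [range_rem]
    intro h
    exact h.2 rfl
  · rintro ⟨I, i⟩ _ ⟨I', i'⟩ _ h
    have e1 : rem I i = rem I' i' := congrArg Prod.fst h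
    have e2 : I i = I' i' := congrArg Prod.snd h
    have hr : Set.range I = Set.range I' := by
      rw [← insert_range_rem I i, ← insert_range_rem I' i', e1, e2]
    have hI : I = I' := OrderEmbedding.range_inj.1 hr
    subst hI
    have hi : i = i' := I.injective e2
    subst hi
    rfl
  · rintro ⟨J, p⟩ hb
    have hp : p ∉ Set.range J := (Finset.mem_filter.1 hb).2
    have hcard : (insert p (univ.map J.toEmbedding) : Finset (Fin N)).card = n + 1 := by
      rw [Finset.card_insert_of_notMem, Finset.card_map, Finset.card_univ, Fintype.card_fin]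
      intro h
      obtain ⟨t, _, ht⟩ := Finset.mem_map.1 h
      exact hp ⟨t, ht⟩
    have hIr : Set.range ((insert p (univ.map J.toEmbedding) : Finset (Fin N)).orderEmbOfFin hcard)
        = insert p (Set.range J) := by
      rw [Finset.range_orderEmbOfFin]
      ext x
      simp
    obtain ⟨i, hi⟩ : p ∈ Set.range
        ((insert p (univ.map J.toEmbedding) : Finset (Fin N)).orderEmbOfFin hcard) := by
      rw [hIr]; exact Set.mem_insert _ _
    refine ⟨((insert p (univ.map J.toEmbedding) : Finset (Fin N)).orderEmbOfFin hcard, i),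
      Finset.mem_univ _, ?_⟩
    have hJ : rem ((insert p (univ.map J.toEmbedding) : Finset (Fin N)).orderEmbOfFin hcard) i
        = J := by
      apply OrderEmbedding.range_inj.1
      rw [range_rem, hIr, hi]
      ext x
      constructor
      · rintro ⟨h2, h3⟩
        rcases h2 with h2 | h2
        · exact absurd h2 h3
        · exact h2
      · intro h2
        exact ⟨Or.inr h2, fun h3 => hp (h3 ▸ h2)⟩
    exact Prod.ext hJ hi
  · rintro ⟨I, i⟩ _
    rfl

theorem front {k : Type u} [Field k] {n N : ℕ} (f : (Fin (n + 1) → Fin N) → k)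
    (hf : ∀ (v : Fin (n + 1) → Fin N) (σ : Equiv.Perm (Fin (n + 1))),
      f (v ∘ σ) = ((Equiv.Perm.sign σ : ℤ) : k) * f v)
    (v : Fin (n + 1) → Fin N) (i : Fin (n + 1)) :
    f (Fin.cons (v i) (fun t => v (i.succAbove t)) : Fin (n + 1) → Fin N) =
      (-1 : k) ^ (i : ℕ) * f v := by
  have h1 : (Fin.cons (v i) (fun t => v (i.succAbove t)) : Fin (n + 1) → Fin N) =
      v ∘ (i.cycleRange.symm) := by
    funext t
    refine Fin.cases ?_ (fun s => ?_) t
    · simp
    · simp
  rw [h1, hf, Equiv.Perm.sign_symm, Fin.sign_cycleRange]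
  simp

theorem t_NZA : Pool.Agent.W622.BK.S_NZA.{u} := by
  intro k _ N m c h hc hcs _ _
  classical
  set Ψ : (Fin m ↪o Fin N) → Fin N → Fin N → k := fun J q p =>
    if p < q then -(c (Fin.cons p (Fin.cons q J : Fin (m + 1) → Fin N)) * h p q J) else 0 with hΨ
  -- moving a position of the tail to the front
  have hcs' : ∀ (p : Fin N) (v : Fin (m + 1) → Fin N) (σ : Equiv.Perm (Fin (m + 1))),
      c (Fin.cons p (v ∘ σ) : Fin (m + 2) → Fin N) =
        ((Equiv.Perm.sign σ : ℤ) : k) * c (Fin.cons p v : Fin (m + 2) → Fin N) := by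
    intro p v σ
    have h1 : (Fin.cons p (v ∘ σ) : Fin (m + 2) → Fin N) =
        (Fin.cons p v : Fin (m + 2) → Fin N) ∘ (Equiv.Perm.decomposeFin.symm (0, σ)) := by
      funext t
      refine Fin.cases ?_ (fun s => ?_) t
      · simp
      · simp
    rw [h1, hcs, Equiv.Perm.decomposeFin.symm_sign]
    simp
  -- the terms
  have hterm : ∀ (I : Fin (m + 2) ↪o Fin N) (i : Fin (m + 2)) (j : Fin (m + 1)),
      (if (i : ℕ) ≤ (j : ℕ) then
        c I * ((-1 : k) ^ ((i : ℕ) + (j : ℕ) + 1) *
          h (I i) (I j.succ) (fun t : Fin m => I (i.succAbove (j.succAbove t))))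
      else 0) = Ψ (rem (rem I i) j) (rem I i j) (I i) := by
    intro I i j
    by_cases hij : (i : ℕ) ≤ (j : ℕ)
    · have h1 : i.succAbove j = j.succ := Fin.succAbove_of_le_castSucc i j (Fin.le_def.2 hij)
      have h2 : rem I i j = I j.succ := by rw [rem_apply, h1]
      have h3 : I i < I j.succ := I.strictMono (Fin.lt_def.2 (by
        rw [Fin.val_succ]; omega))
      have h4 := front c hcs I i
      have h5 := front (fun v => c (Fin.cons (I i) v : Fin (m + 2) → Fin N)) (hcs' (I i))
        (rem I i) j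
      have h6 : (fun t => (rem I i) (j.succAbove t)) = (rem (rem I i) j : Fin m → Fin N) := rfl
      have h7 : (fun t => I (i.succAbove t)) = (rem I i : Fin (m + 1) → Fin N) := rfl
      have h8 : (fun t : Fin m => I (i.succAbove (j.succAbove t))) =
        (rem (rem I i) j : Fin m → Fin N) := rfl
      rw [h7] at h4
      simp only [h6] at h5
      rw [h4, h2] at h5
      rw [if_pos hij, h8, hΨ]
      simp only
      rw [h2, if_pos h3, h5]
      ring
    · have h1 : i.succAbove j = j.castSucc := Fin.succAbove_of_castSucc_lt i j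
        (Fin.lt_def.2 (by rw [Fin.val_castSucc]; omega))
      have h2 : rem I i j = I j.castSucc := by rw [rem_apply, h1]
      have h3 : ¬ I i < I j.castSucc := by
        apply not_lt.2
        apply le_of_lt
        exact I.strictMono (Fin.lt_def.2 (by rw [Fin.val_castSucc]; omega))
      rw [if_neg hij, hΨ]
      simp only
      rw [h2, if_neg h3]
  -- degenerate terms
  have hz1 : ∀ (J : Fin m ↪o Fin N) (q p : Fin N), p ∈ Set.range J → Ψ J q p = 0 := by
    rintro J q p ⟨t, ht⟩
    have h1 : c (Fin.cons p (Fin.cons q J : Fin (m + 1) → Fin N)) = 0 := by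
      apply hc
      intro hinj
      have h2 : (Fin.cons p (Fin.cons q J : Fin (m + 1) → Fin N) : Fin (m + 2) → Fin N) 0 =
        (Fin.cons p (Fin.cons q J : Fin (m + 1) → Fin N) : Fin (m + 2) → Fin N) t.succ.succ := by
        rw [Fin.cons_zero, Fin.cons_succ, Fin.cons_succ, ht]
      exact absurd (hinj h2) (Fin.succ_ne_zero _).symm
    rw [hΨ]
    simp only
    rw [h1]
    simp
  have hz2 : ∀ (J : Fin m ↪o Fin N) (q p : Fin N), q ∈ Set.range J → Ψ J q p = 0 := by
    rintro J q p ⟨t, ht⟩
    have h1 : c (Fin.cons p (Fin.cons q J : Fin (m + 1) → Fin N)) = 0 := by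
      apply hc
      intro hinj
      have h2 : (Fin.cons p (Fin.cons q J : Fin (m + 1) → Fin N) : Fin (m + 2) → Fin N)
          (Fin.succ 0) =
        (Fin.cons p (Fin.cons q J : Fin (m + 1) → Fin N) : Fin (m + 2) → Fin N) t.succ.succ := by
        rw [Fin.cons_succ, Fin.cons_zero, Fin.cons_succ, Fin.cons_succ, ht]
      exact absurd (Fin.succ_injective _ (hinj h2)) (Fin.succ_ne_zero _).symm
    rw [hΨ]
    simp only
    rw [h1]
    simp
  have hz3 : ∀ (J : Fin m ↪o Fin N) (p : Fin N), Ψ J p p = 0 := by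
    intro J p
    rw [hΨ]
    simp
  -- first step
  have s1 : ∑ I : Fin (m + 2) ↪o Fin N, ∑ i : Fin (m + 2), ∑ j : Fin (m + 1),
      Ψ (rem (rem I i) j) (rem I i j) (I i) =
      ∑ I : Fin (m + 1) ↪o Fin N, ∑ p : Fin N, ∑ j : Fin (m + 1), Ψ (rem I j) (I j) p := by
    rw [one_step (fun (I : Fin (m + 1) ↪o Fin N) (p : Fin N) =>
      ∑ j : Fin (m + 1), Ψ (rem I j) (I j) p)]
    refine Finset.sum_congr rfl fun I _ => Finset.sum_congr rfl fun p _ => ?_
    by_cases hp : p ∈ Set.range I
    · rw [if_pos hp]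
      symm
      apply Finset.sum_eq_zero
      intro j _
      rw [← insert_range_rem I j] at hp
      rcases hp with hp | hp
      · rw [hp]; exact hz3 _ _
      · exact hz1 _ _ _ hp
    · rw [if_neg hp]
  have s2 : ∀ p : Fin N, ∑ I : Fin (m + 1) ↪o Fin N, ∑ j : Fin (m + 1), Ψ (rem I j) (I j) p =
      ∑ J : Fin m ↪o Fin N, ∑ q : Fin N, Ψ J q p := by
    intro p
    rw [one_step (fun (J : Fin m ↪o Fin N) (q : Fin N) => Ψ J q p)]
    refine Finset.sum_congr rfl fun J _ => Finset.sum_congr rfl fun q _ => ?_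
    by_cases hq : q ∈ Set.range J
    · rw [if_pos hq, hz2 _ _ _ hq]
    · rw [if_neg hq]
  rw [Finset.sum_congr rfl fun I _ => Finset.sum_congr rfl fun i _ =>
    Finset.sum_congr rfl fun j _ => hterm I i j, s1, Finset.sum_comm,
    Finset.sum_congr rfl fun p _ => s2 p, Finset.sum_comm, ← Finset.sum_neg_distrib]
  refine Finset.sum_congr rfl fun J _ => ?_
  rw [← Finset.sum_neg_distrib]
  refine Finset.sum_congr rfl fun p _ => ?_
  rw [← Finset.sum_neg_distrib]
  refine Finset.sum_congr rfl fun q _ => ?_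
  rw [hΨ]
  simp only
  split_ifs
  · rfl
  · simp

end Pool.Agent.W766.BK
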